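import Pool.Agent.Q247.MT.Core

set_option autoImplicit false

/-!
# `ρ(a) = ∑ |a_j| ^ p_j` is a left-continuous convex modular with the Fatou property
-/

namespace Pool.Agent.Q247.MT

open Filter Topology Set
open scoped ENNReal

/-- `ρ : X → [0, ∞]` is a convex, left-continuous modular on the real vector space `X`. -/
structure IsModular {X : Type*} [AddCommGroup X] [Module ℝ X] (ρ : X → ℝ≥0∞) : Prop where
  eq_zero_iff : ∀ u, ρ u = 0 ↔ u = 0
  smul_eq : ∀ (α : ℝ) (u : X), |α| = 1 → ρ (α • u) = ρ u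
  convex : ∀ (α : ℝ) (u v : X), 0 ≤ α → α ≤ 1 →
    ρ (α • u + (1 - α) • v) ≤ ENNReal.ofReal α * ρ u + ENNReal.ofReal (1 - α) * ρ v
  left_continuous : ∀ (u : X) (l : ℝ), 0 < l →
    Tendsto (fun m : ℝ => ρ (m • u)) (𝓝[<] l) (𝓝 (ρ (l • u)))

/-- The Fatou property: if `y_k → y` in the sense of `ρ` then `ρ y ≤ liminf ρ (y_k)`. -/
def Fatou {X : Type*} [AddCommGroup X] [Module ℝ X] (ρ : X → ℝ≥0∞) : Prop :=
  ∀ (y : ℕ → Space ρ) (x : Space ρ), Tendsto (fun k => ρ ((y k : X) - (x : X))) atTop (𝓝 0) →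
    ρ (x : X) ≤ liminf (fun k => ρ (y k : X)) atTop

variable {p : ℕ → ℝ}

lemma sum_le_rho (a : ℕ → ℝ) (s : Finset ℕ) :
    ∑ j ∈ s, ENNReal.ofReal (|a j| ^ p j) ≤ rho p a :=
  ENNReal.sum_le_tsum (f := fun j => ENNReal.ofReal (|a j| ^ p j)) s

lemma exists_finset {a : ℕ → ℝ} {c : ℝ≥0∞} (h : c < rho p a) :
    ∃ s : Finset ℕ, c < ∑ j ∈ s, ENNReal.ofReal (|a j| ^ p j) := by
  unfold rho at h
  rw [ENNReal.tsum_eq_iSup_sum] at h
  exact lt_iSup_iff.1 h

/-- modular convergence implies convergence of the coordinates -/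
lemma tendsto_coord (hp : ∀ n, 1 ≤ p n) {y : ℕ → Space (rho p)} {x : Space (rho p)}
    (h : Tendsto (fun k => rho p ((y k : ℕ → ℝ) - (x : ℕ → ℝ))) atTop (𝓝 0)) (n : ℕ) :
    Tendsto (fun k => (y k : ℕ → ℝ) n) atTop (𝓝 ((x : ℕ → ℝ) n)) := by
  rw [Metric.tendsto_atTop]
  intro ε hε
  have hpn : 0 < p n := by linarith [hp n]
  have h1 := h.eventually (gt_mem_nhds (ENNReal.ofReal_pos.2 (Real.rpow_pos_of_pos hε (p n))))
  obtain ⟨K, hK⟩ := eventually_atTop.1 h1
  refine ⟨K, fun k hk => ?_⟩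
  have h2 := coord_lt hpn hε (hK k hk)
  rwa [Pi.sub_apply] at h2

lemma continuous_term (hp : ∀ n, 1 ≤ p n) (n : ℕ) :
    Continuous fun z : ℝ => ENNReal.ofReal (|z| ^ p n) := by
  apply ENNReal.continuous_ofReal.comp
  exact (continuous_abs).rpow_const fun x => Or.inr (by linarith [hp n])

theorem fatou (hp : ∀ n, 1 ≤ p n) : Fatou (rho p) := by
  intro y x h
  refine le_of_forall_lt fun c hc => ?_
  obtain ⟨s, hs⟩ := exists_finset hc
  have h1 : Tendsto (fun k => ∑ j ∈ s, ENNReal.ofReal (|(y k : ℕ → ℝ) j| ^ p j)) atTop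
      (𝓝 (∑ j ∈ s, ENNReal.ofReal (|(x : ℕ → ℝ) j| ^ p j))) :=
    tendsto_finsetSum _ fun j _ =>
      ((continuous_term hp j).tendsto _).comp (tendsto_coord hp h j)
  obtain ⟨c', hc1, hc2⟩ := exists_between hs
  refine hc1.trans_le (le_liminf_of_le (by isBoundedDefault) ?_)
  filter_upwards [h1.eventually (lt_mem_nhds hc2)] with k hk
  exact hk.le.trans (sum_le_rho _ s)

theorem isModular (hp : ∀ n, 1 ≤ p n) : IsModular (rho p) where
  eq_zero_iff u := by
    constructor
    · exact eq_zero_of_rho fun n => by linarith [hp n]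
    · rintro rfl
      unfold rho
      simp only [Pi.zero_apply, abs_zero]
      rw [ENNReal.tsum_eq_zero]
      intro j
      rw [Real.zero_rpow (by linarith [hp j]), ENNReal.ofReal_zero]
  smul_eq α u h := by
    unfold rho
    congr 1
    funext j
    rw [Pi.smul_apply, smul_eq_mul, abs_mul, h, one_mul]
  convex α u v h0 h1 := by
    unfold rho
    rw [← ENNReal.tsum_mul_left, ← ENNReal.tsum_mul_left, ← ENNReal.tsum_add]
    refine ENNReal.tsum_le_tsum fun j => ?_
    rw [← ENNReal.ofReal_mul h0, ← ENNReal.ofReal_mul (by linarith),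
      ← ENNReal.ofReal_add (by positivity) (mul_nonneg (by linarith) (by positivity))]
    apply ENNReal.ofReal_le_ofReal
    have h2 : |(α • u + (1 - α) • v) j| ≤ α * |u j| + (1 - α) * |v j| := by
      simp only [Pi.add_apply, Pi.smul_apply, smul_eq_mul]
      calc |α * u j + (1 - α) * v j| ≤ |α * u j| + |(1 - α) * v j| := abs_add_le _ _
        _ = _ := by
            rw [abs_mul, abs_mul, abs_of_nonneg h0,
              abs_of_nonneg (by linarith : (0 : ℝ) ≤ 1 - α)]
    calc |(α • u + (1 - α) • v) j| ^ p j ≤ (α * |u j| + (1 - α) * |v j|) ^ p j :=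
          Real.rpow_le_rpow (abs_nonneg _) h2 (by linarith [hp j])
      _ ≤ α * |u j| ^ p j + (1 - α) * |v j| ^ p j := by
          have := (convexOn_rpow (hp j)).2 (mem_Ici.2 (abs_nonneg (u j)))
            (mem_Ici.2 (abs_nonneg (v j))) h0 (by linarith : (0 : ℝ) ≤ 1 - α) (by ring)
          simpa [smul_eq_mul] using this
  left_continuous u l hl := by
    rw [tendsto_order]
    constructor
    · intro c hc
      obtain ⟨s, hs⟩ := exists_finset hc
      have h1 : Tendsto (fun m : ℝ => ∑ j ∈ s, ENNReal.ofReal (|(m • u) j| ^ p j)) (𝓝 l)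
          (𝓝 (∑ j ∈ s, ENNReal.ofReal (|(l • u) j| ^ p j))) := by
        refine tendsto_finsetSum _ fun j _ => ((continuous_term hp j).tendsto _).comp ?_
        exact (continuous_id.smul continuous_const).tendsto l
      filter_upwards [(h1.mono_left nhdsWithin_le_nhds).eventually (lt_mem_nhds hs)] with m hm
      exact hm.trans_le (sum_le_rho _ s)
    · intro c hc
      have hev : ∀ᶠ m : ℝ in 𝓝[<] l, 0 < m :=
        (lt_mem_nhds hl).filter_mono nhdsWithin_le_nhds
      filter_upwards [hev, self_mem_nhdsWithin] with m hm hml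
      refine lt_of_le_of_lt ?_ hc
      unfold rho
      refine ENNReal.tsum_le_tsum fun j => ENNReal.ofReal_le_ofReal ?_
      apply Real.rpow_le_rpow (abs_nonneg _) _ (by linarith [hp j])
      simp only [Pi.smul_apply, smul_eq_mul, abs_mul]
      apply mul_le_mul_of_nonneg_right _ (abs_nonneg _)
      rw [abs_of_pos hm, abs_of_pos hl]
      exact (mem_Iio.1 hml).le

/-- the modular topology of `ℓ^(p_n)` is Hausdorff -/
theorem t2 (hp : ∀ n, 1 ≤ p n) : @T2Space (Space (rho p)) (modularTopology (rho p)) := by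
  letI := modularTopology (rho p)
  refine ⟨fun x y hxy => ?_⟩
  obtain ⟨n, hn⟩ : ∃ n, (x : ℕ → ℝ) n ≠ (y : ℕ → ℝ) n := by
    by_contra hcon
    push Not at hcon
    exact hxy (Subtype.ext (funext hcon))
  have hc : ∀ C : Set ℝ, IsClosed C → IsClosed {z : Space (rho p) | (z : ℕ → ℝ) n ∈ C} := by
    intro C hC
    rw [isClosed_iff]
    intro w z hw hz
    exact hC.mem_of_tendsto (tendsto_coord hp hz n) (Eventually.of_forall hw)
  have ho : ∀ O : Set ℝ, IsOpen O → IsOpen {z : Space (rho p) | (z : ℕ → ℝ) n ∈ O} := by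
    intro O hO
    have := (hc Oᶜ hO.isClosed_compl).isOpen_compl
    simpa [compl_ofPred] using this
  obtain ⟨A, B, hA, hB, hxA, hyB, hAB⟩ := t2_separation hn
  exact ⟨_, _, ho A hA, ho B hB, hxA, hyB,
    Set.disjoint_left.2 fun z h1 h2 => Set.disjoint_left.1 hAB h1 h2⟩

end Pool.Agent.Q247.MT
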