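import Mathlib

set_option autoImplicit false

/-!
# Modular topologies of the variable exponent sequence spaces

`ρ(a) = ∑ |a_j| ^ p_j` on the real sequences. We show that the modular topology of `ℓ^(p_n)` is not
regular if the exponents are unbounded. The points used have coordinates `0`, `1/2`, `1` and are
supported on the nodes of a branch of the tree of the finite sequences of natural numbers.
-/

namespace Pool.Agent.Q247.MT

open Filter Topology Set
open scoped ENNReal

section General
variable {X : Type*} [AddCommGroup X] [Module ℝ X]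

/-- The modular space `X_ρ = {v : ρ (l v) < ∞ for some l > 0}`. -/
def Space (ρ : X → ℝ≥0∞) : Set X := {v | ∃ l : ℝ, 0 < l ∧ ρ (l • v) < ⊤}

/-- `C ⊆ X_ρ` is `ρ`-closed: if `x_k ∈ C` and `ρ (x_k - y) → 0` then `y ∈ C`. -/
def MClosed (ρ : X → ℝ≥0∞) (C : Set (Space ρ)) : Prop :=
  ∀ (x : ℕ → Space ρ) (y : Space ρ), (∀ k, x k ∈ C) →
    Tendsto (fun k => ρ ((x k : X) - (y : X))) atTop (𝓝 0) → y ∈ C

/-- The modular topology on `X_ρ`: its closed sets are the `ρ`-closed sets. -/
@[reducible] def modularTopology (ρ : X → ℝ≥0∞) : TopologicalSpace (Space ρ) :=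
  TopologicalSpace.ofClosed {C | MClosed ρ C}
    (by intro x y h _; exact (h 0).elim)
    (fun A hA x y h1 h2 C hC => hA hC x y (fun k => h1 k C hC) h2)
    (by
      intro A hA B hB x y h1 h2
      by_cases h : ∃ᶠ k in atTop, x k ∈ A
      · obtain ⟨φ, hφ, h3⟩ := extraction_of_frequently_atTop h
        exact Or.inl (hA (x ∘ φ) y h3 (h2.comp hφ.tendsto_atTop))
      · rw [not_frequently] at h
        have h' : ∃ᶠ k in atTop, x k ∈ B := by
          apply Eventually.frequently
          filter_upwards [h] with k hk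
          exact (h1 k).resolve_left hk
        obtain ⟨φ, hφ, h3⟩ := extraction_of_frequently_atTop h'
        exact Or.inr (hB (x ∘ φ) y h3 (h2.comp hφ.tendsto_atTop)))

theorem isClosed_iff (ρ : X → ℝ≥0∞) (C : Set (Space ρ)) :
    IsClosed[modularTopology ρ] C ↔ MClosed ρ C := by
  letI := modularTopology ρ
  rw [← isOpen_compl_iff]
  show Cᶜᶜ ∈ {C | MClosed ρ C} ↔ _
  rw [compl_compl]
  rfl

theorem ball_of_open {ρ : X → ℝ≥0∞} {U : Set (Space ρ)} (hU : IsOpen[modularTopology ρ] U)
    {x : Space ρ} (hx : x ∈ U) :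
    ∃ N : ℕ, ∀ y : Space ρ, ρ ((y : X) - (x : X)) ≤ (2⁻¹ : ℝ≥0∞) ^ N → y ∈ U := by
  letI := modularTopology ρ
  by_contra hcon
  push Not at hcon
  choose y hy1 hy2 using hcon
  have h1 : MClosed ρ Uᶜ := (isClosed_iff ρ _).1 hU.isClosed_compl
  refine h1 y x (fun k => hy2 k) ?_ hx
  refine tendsto_of_tendsto_of_tendsto_of_le_of_le tendsto_const_nhds
    (ENNReal.tendsto_pow_atTop_nhds_zero_of_lt_one (by norm_num)) (fun _ => bot_le) hy1

end General

/-- `ρ(a) = ∑ |a_j| ^ p_j` -/
noncomputable def rho (p : ℕ → ℝ) (a : ℕ → ℝ) : ℝ≥0∞ := ∑' j, ENNReal.ofReal (|a j| ^ p j)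

lemma coord_lt {p : ℕ → ℝ} {z : ℕ → ℝ} {n : ℕ} {δ : ℝ} (hp : 0 < p n) (hδ : 0 < δ)
    (h : rho p z < ENNReal.ofReal (δ ^ p n)) : |z n| < δ := by
  by_contra hcon
  push Not at hcon
  have h1 : ENNReal.ofReal (δ ^ p n) ≤ ENNReal.ofReal (|z n| ^ p n) :=
    ENNReal.ofReal_le_ofReal (Real.rpow_le_rpow hδ.le hcon hp.le)
  have h2 : ENNReal.ofReal (|z n| ^ p n) ≤ rho p z :=
    ENNReal.le_tsum (f := fun j => ENNReal.ofReal (|z j| ^ p j)) n
  exact absurd h (not_lt.2 (h1.trans h2))

lemma eq_zero_of_rho {p : ℕ → ℝ} {z : ℕ → ℝ} (hp : ∀ n, 0 < p n) (h : rho p z = 0) : z = 0 := by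
  funext n
  by_contra hne
  have h1 : 0 < |z n| := abs_pos.2 hne
  have h2 := coord_lt (z := z) (hp n) h1 (by
    rw [h]
    exact ENNReal.ofReal_pos.2 (Real.rpow_pos_of_pos h1 _))
  exact lt_irrefl _ h2

lemma exists_q {p : ℕ → ℝ} (hunb : ¬ BddAbove (range p)) :
    ∃ q : List ℕ → ℕ, Function.Injective q ∧
      ∀ t, 2 * (((Encodable.encode t : ℕ) : ℝ) + 1) ≤ p (q t) := by
  have h : ∀ n : ℕ, ∃ᶠ k in atTop, 2 * ((n : ℝ) + 1) ≤ p k := by
    intro n
    by_contra hcon
    rw [not_frequently, eventually_atTop] at hcon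
    obtain ⟨K, hK⟩ := hcon
    apply hunb
    refine ⟨max (2 * ((n : ℝ) + 1)) (∑ k ∈ Finset.range K, |p k|), ?_⟩
    rintro _ ⟨k, rfl⟩
    by_cases hk : K ≤ k
    · exact le_max_of_le_left (not_le.1 (hK k hk)).le
    · refine le_max_of_le_right ((le_abs_self _).trans ?_)
      exact Finset.single_le_sum (f := fun k => |p k|) (fun _ _ => abs_nonneg _)
        (Finset.mem_range.2 (not_le.1 hk))
  obtain ⟨φ, hφ, h2⟩ := extraction_forall_of_frequently h
  exact ⟨fun t => φ (Encodable.encode t), hφ.injective.comp Encodable.encode_injective,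
    fun t => h2 _⟩

/-- the sequence with the values `v t` at the places `q t` and zeros elsewhere -/
noncomputable def E (q : List ℕ → ℕ) (v : List ℕ → ℝ) : ℕ → ℝ := Function.extend q v 0

lemma E_apply {q : List ℕ → ℕ} (hq : Function.Injective q) (v : List ℕ → ℝ) (t : List ℕ) :
    E q v (q t) = v t := hq.extend_apply v 0 t

lemma E_zero (q : List ℕ → ℕ) : E q 0 = 0 := by
  classical
  funext n
  unfold E
  by_cases h : ∃ t, q t = n
  · rw [Function.extend_def, dif_pos h]; rfl
  · rw [Function.extend_apply' _ _ _ h]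

lemma smul_E (q : List ℕ → ℕ) (v : List ℕ → ℝ) (l : ℝ) : l • E q v = E q (l • v) := by
  classical
  funext n
  unfold E
  by_cases h : ∃ t, q t = n
  · simp only [Pi.smul_apply, Function.extend_def, dif_pos h]
  · simp [Function.extend_apply' _ _ _ h]

lemma rho_le {p : ℕ → ℝ} (hp : ∀ n, 0 < p n) {q : List ℕ → ℕ} (hq : Function.Injective q)
    (hpq : ∀ t, 2 * (((Encodable.encode t : ℕ) : ℝ) + 1) ≤ p (q t)) {v w : List ℕ → ℝ} {N : ℕ}
    (h1 : ∀ t, |v t - w t| ≤ 1 / 2) (h2 : ∀ t, Encodable.encode t < N → v t = w t) :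
    rho p (E q v - E q w) ≤ (2⁻¹ : ℝ≥0∞) ^ N := by
  unfold rho
  have hsupp : Function.support (fun n => ENNReal.ofReal (|(E q v - E q w) n| ^ p n)) ⊆ range q := by
    intro n hn
    by_contra hcon
    apply hn
    have hne : ¬ ∃ t, q t = n := fun ⟨t, ht⟩ => hcon ⟨t, ht⟩
    have : (E q v - E q w) n = 0 := by
      simp [E, Function.extend_apply' _ _ _ hne]
    simp only [this, abs_zero, Real.zero_rpow (hp n).ne', ENNReal.ofReal_zero]
  rw [← hq.tsum_eq hsupp]
  have half : ENNReal.ofReal (1 / 2) = 2⁻¹ := by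
    rw [one_div, ENNReal.ofReal_inv_of_pos (by norm_num)]
    norm_num
  have hterm : ∀ t, ENNReal.ofReal (|(E q v - E q w) (q t)| ^ p (q t)) ≤
      (2⁻¹ : ℝ≥0∞) ^ N * (2⁻¹ : ℝ≥0∞) ^ (Encodable.encode t + 1) := by
    intro t
    rw [Pi.sub_apply, E_apply hq, E_apply hq]
    by_cases ht : Encodable.encode t < N
    · rw [h2 t ht, sub_self, abs_zero, Real.zero_rpow (hp _).ne', ENNReal.ofReal_zero]
      exact bot_le
    · push Not at ht
      have h3 : |v t - w t| ^ p (q t) ≤ (1 / 2 : ℝ) ^ N * (1 / 2 : ℝ) ^ (Encodable.encode t + 1) := by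
        calc |v t - w t| ^ p (q t) ≤ (1 / 2 : ℝ) ^ p (q t) :=
              Real.rpow_le_rpow (abs_nonneg _) (h1 t) (hp _).le
          _ ≤ (1 / 2 : ℝ) ^ (((N + (Encodable.encode t + 1) : ℕ)) : ℝ) := by
              apply Real.rpow_le_rpow_of_exponent_ge (by norm_num) (by norm_num)
              have h4 := hpq t
              have h5 : (N : ℝ) ≤ (Encodable.encode t : ℕ) := by exact_mod_cast ht
              push_cast
              linarith
          _ = _ := by rw [Real.rpow_natCast, pow_add]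
      calc ENNReal.ofReal (|v t - w t| ^ p (q t))
          ≤ ENNReal.ofReal ((1 / 2 : ℝ) ^ N * (1 / 2 : ℝ) ^ (Encodable.encode t + 1)) :=
            ENNReal.ofReal_le_ofReal h3
        _ = _ := by
            rw [ENNReal.ofReal_mul (by positivity), ENNReal.ofReal_pow (by norm_num),
              ENNReal.ofReal_pow (by norm_num), half]
  calc ∑' t, ENNReal.ofReal (|(E q v - E q w) (q t)| ^ p (q t))
      ≤ ∑' t : List ℕ, (2⁻¹ : ℝ≥0∞) ^ N * (2⁻¹ : ℝ≥0∞) ^ (Encodable.encode t + 1) :=
        ENNReal.tsum_le_tsum hterm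
    _ = (2⁻¹ : ℝ≥0∞) ^ N * ∑' t : List ℕ, (2⁻¹ : ℝ≥0∞) ^ (Encodable.encode t + 1) :=
        ENNReal.tsum_mul_left
    _ ≤ (2⁻¹ : ℝ≥0∞) ^ N * ∑' j : ℕ, (2⁻¹ : ℝ≥0∞) ^ (j + 1) := by
        gcongr
        exact ENNReal.tsum_comp_le_tsum_of_injective Encodable.encode_injective
          (fun j => (2⁻¹ : ℝ≥0∞) ^ (j + 1))
    _ = (2⁻¹ : ℝ≥0∞) ^ N := by
        have : ∑' j : ℕ, (2⁻¹ : ℝ≥0∞) ^ (j + 1) = 1 := by
          simp only [pow_succ]
          rw [ENNReal.tsum_mul_right, ENNReal.tsum_geometric, ENNReal.one_sub_inv_two, inv_inv,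
            ENNReal.mul_inv_cancel (by norm_num) (by norm_num)]
        rw [this, mul_one]

/-- comparable finite sequences -/
def Comp (s t : List ℕ) : Prop := s <+: t ∨ t <+: s

/-- the index set of the closed set -/
abbrev I := ℕ × List ℕ × Finset (List ℕ)

/-- the places of the ones -/
def tail (e : I → ℕ) (i : I) : Set (List ℕ) :=
  {t | ∃ k, t = i.2.1 ++ List.replicate k (e i) ∧ i.1 ≤ Encodable.encode t}

/-- the condition on the index -/
def Good (i : I) : Prop := ∀ t ∈ i.2.2, t <+: i.2.1 ∧ Encodable.encode t < i.1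

open Classical in
/-- the points of the closed set -/
noncomputable def fpt (e : I → ℕ) (i : I) (t : List ℕ) : ℝ :=
  if t ∈ tail e i then 1 else if t ∈ i.2.2 then 1 / 2 else 0

lemma fpt_pos {e : I → ℕ} {i : I} {t : List ℕ} (h : 0 < fpt e i t) : t ∈ tail e i ∨ t ∈ i.2.2 := by
  unfold fpt at h
  split_ifs at h with h1 h2
  · exact Or.inl h1
  · exact Or.inr h2
  · exact absurd h (lt_irrefl _)

lemma exists_tail (e : I → ℕ) (i : I) (L : ℕ) :
    ∃ k, L ≤ k ∧ i.1 ≤ Encodable.encode (i.2.1 ++ List.replicate k (e i)) := by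
  have hinj : Function.Injective fun k : ℕ => Encodable.encode (i.2.1 ++ List.replicate k (e i)) := by
    intro a b hab
    have h1 := congrArg List.length (Encodable.encode_injective hab)
    simpa using h1
  have h2 := hinj.nat_tendsto_atTop.eventually (eventually_ge_atTop i.1)
  obtain ⟨k, hk1, hk2⟩ := ((eventually_ge_atTop L).and h2).exists
  exact ⟨k, hk1, hk2⟩

lemma prefix_long {e : I → ℕ} {i : I} (hi : Good i) {t : List ℕ} (h : t ∈ tail e i ∨ t ∈ i.2.2) :
    ∃ k0, ∀ k, k0 ≤ k → t <+: i.2.1 ++ List.replicate k (e i) := by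
  rcases h with ⟨k0, rfl, _⟩ | h
  · refine ⟨k0, fun k hk => ⟨List.replicate (k - k0) (e i), ?_⟩⟩
    rw [List.append_assoc, ← List.replicate_add]
    congr 2
    omega
  · exact ⟨0, fun k _ => (hi t h).1.trans (List.prefix_append _ _)⟩

lemma comp_good {e : I → ℕ} {i : I} (hi : Good i) {s t : List ℕ} (hs : s ∈ tail e i ∨ s ∈ i.2.2)
    (ht : t ∈ tail e i ∨ t ∈ i.2.2) : Comp s t := by
  obtain ⟨k, hk⟩ := prefix_long hi hs
  obtain ⟨l, hl⟩ := prefix_long hi ht
  exact List.prefix_or_prefix_of_prefix (hk (max k l) (le_max_left _ _))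
    (hl (max k l) (le_max_right _ _))

lemma distinct {e : I → ℕ} (he : Function.Injective e) {i j : I}
    (h : ∀ s ∈ tail e i, ∀ t ∈ tail e j, Comp s t) : i = j := by
  obtain ⟨k, hk, hk2⟩ := exists_tail e i (j.2.1.length + 1)
  obtain ⟨l, hl, hl2⟩ := exists_tail e j (i.2.1.length + 1)
  have h1 := h _ ⟨k, rfl, hk2⟩ _ ⟨l, rfl, hl2⟩
  set L := i.2.1.length + j.2.1.length with hL
  have hi : (i.2.1 ++ List.replicate k (e i))[L]? = some (e i) := by
    rw [List.getElem?_append_right (by omega), List.getElem?_replicate, if_pos (by omega)]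
  have hj : (j.2.1 ++ List.replicate l (e j))[L]? = some (e j) := by
    rw [List.getElem?_append_right (by omega), List.getElem?_replicate, if_pos (by omega)]
  apply he
  have hil : L < (i.2.1 ++ List.replicate k (e i)).length := by simp; omega
  have hjl : L < (j.2.1 ++ List.replicate l (e j)).length := by simp; omega
  rcases h1 with ⟨r, hr⟩ | ⟨r, hr⟩
  · rw [← hr, List.getElem?_append_left hil, hi] at hj
    exact Option.some.inj hj
  · rw [← hr, List.getElem?_append_left hjl, hj] at hi
    exact (Option.some.inj hi).symm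

lemma chain_sup (σ : Finset (List ℕ)) (h : ∀ s ∈ σ, ∀ t ∈ σ, Comp s t) :
    ∃ s : List ℕ, ∀ t ∈ σ, t <+: s := by
  rcases σ.eq_empty_or_nonempty with rfl | hne
  · exact ⟨[], by simp⟩
  · obtain ⟨s, hs, hmax⟩ := σ.exists_max_image List.length hne
    refine ⟨s, fun t ht => ?_⟩
    rcases h t ht s hs with h1 | h1
    · exact h1
    · have h2 := hmax t ht
      have h3 := h1.length_le
      rw [h1.eq_of_length (le_antisymm h3 h2)]

variable {p : ℕ → ℝ} {q : List ℕ → ℕ}

lemma mem_space (hp : ∀ n, 0 < p n) (hq : Function.Injective q)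
    (hpq : ∀ t, 2 * (((Encodable.encode t : ℕ) : ℝ) + 1) ≤ p (q t)) {v : List ℕ → ℝ}
    (hv : ∀ t, |v t| ≤ 1) : E q v ∈ Space (rho p) := by
  refine ⟨1 / 2, by norm_num, ?_⟩
  have h1 := rho_le hp hq hpq (v := (1 / 2 : ℝ) • v) (w := 0) (N := 0) (fun t => by
    have := hv t
    simp only [Pi.smul_apply, smul_eq_mul, Pi.zero_apply, sub_zero, abs_mul]
    rw [abs_of_pos (by norm_num : (0 : ℝ) < 1 / 2)]
    linarith) (fun t ht => by omega)
  rw [E_zero, sub_zero, pow_zero, ← smul_E] at h1
  exact h1.trans_lt ENNReal.one_lt_top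

/-- the closed set -/
def FF (p : ℕ → ℝ) (q : List ℕ → ℕ) (e : I → ℕ) : Set (Space (rho p)) :=
  {x | ∃ i, Good i ∧ (x : ℕ → ℝ) = E q (fpt e i)}

lemma fpt_tail {e : I → ℕ} {i : I} {t : List ℕ} (h : t ∈ tail e i) : fpt e i t = 1 := by
  unfold fpt
  rw [if_pos h]

theorem FF_closed (hp : ∀ n, 0 < p n) (hq : Function.Injective q) {e : I → ℕ}
    (he : Function.Injective e) : MClosed (rho p) (FF p q e) := by
  intro x y hx hy
  choose i hi hxi using hx
  have hev1 : ∀ᶠ k in atTop, rho p ((x k : ℕ → ℝ) - y) < 1 :=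
    hy.eventually (gt_mem_nhds one_pos)
  obtain ⟨k0, hk0⟩ := eventually_atTop.1 hev1
  -- eventually the nodes of the ones are in the supports
  have key : ∀ k, k0 ≤ k → ∀ t ∈ tail e (i k), ∀ᶠ l in atTop, t ∈ tail e (i l) ∨ t ∈ (i l).2.2 := by
    intro k hk t ht
    have h1 : |((x k : ℕ → ℝ) - y) (q t)| < 1 := by
      apply coord_lt (hp _) one_pos
      rw [Real.one_rpow, ENNReal.ofReal_one]
      exact hk0 k hk
    rw [Pi.sub_apply, hxi k, E_apply hq, fpt_tail ht] at h1
    have hpos : 0 < (y : ℕ → ℝ) (q t) := by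
      have := (abs_lt.1 h1).2
      linarith
    have hev : ∀ᶠ l in atTop, rho p ((x l : ℕ → ℝ) - y) <
        ENNReal.ofReal (((y : ℕ → ℝ) (q t)) ^ p (q t)) :=
      hy.eventually (gt_mem_nhds (ENNReal.ofReal_pos.2 (Real.rpow_pos_of_pos hpos _)))
    filter_upwards [hev] with l hl
    have h2 := coord_lt (hp _) hpos hl
    rw [Pi.sub_apply, hxi l, E_apply hq] at h2
    apply fpt_pos
    have := (abs_lt.1 h2).1
    linarith
  have hconst : ∀ k, k0 ≤ k → i k = i k0 := by
    intro k hk
    apply distinct he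
    intro s hs t ht
    obtain ⟨l, hl1, hl2⟩ := ((key k hk s hs).and (key k0 le_rfl t ht)).exists
    exact comp_good (hi l) hl1 hl2
  have hx0 : ∀ k, k0 ≤ k → (x k : ℕ → ℝ) = x k0 := by
    intro k hk
    rw [hxi k, hxi k0, hconst k hk]
  have h0 : rho p ((x k0 : ℕ → ℝ) - y) = 0 := by
    apply tendsto_nhds_unique _ hy
    refine tendsto_const_nhds.congr' ?_
    filter_upwards [eventually_ge_atTop k0] with k hk
    rw [hx0 k hk]
  refine ⟨i k0, hi k0, ?_⟩
  have h1 := eq_zero_of_rho hp h0
  rw [← hxi k0]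
  exact (sub_eq_zero.1 h1).symm

/-- Two finite sequences of the Baire space: chains of nodes with code at least `n0`. -/
def YS (n0 : ℕ) : Set (List ℕ → Bool) :=
  {f | (∀ s t, Comp s t ∨ f s = false ∨ f t = false) ∧ ∀ t, Encodable.encode t < n0 → f t = false}

lemma YS_closed (n0 : ℕ) : IsClosed (YS n0) := by
  have h1 : ∀ s : List ℕ, IsClosed {f : List ℕ → Bool | f s = false} := fun s =>
    isClosed_eq (continuous_apply s) continuous_const
  have e : YS n0 = (⋂ s : List ℕ, ⋂ t : List ℕ,
      {f : List ℕ → Bool | Comp s t ∨ f s = false ∨ f t = false}) ∩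
      ⋂ t : List ℕ, {f : List ℕ → Bool | Encodable.encode t < n0 → f t = false} := by
    ext f
    simp [YS]
  rw [e]
  refine IsClosed.inter (isClosed_iInter fun s => isClosed_iInter fun t => ?_)
    (isClosed_iInter fun t => ?_)
  · by_cases h : Comp s t
    · have : {f : List ℕ → Bool | Comp s t ∨ f s = false ∨ f t = false} = univ := by
        ext f; simp [h]
      rw [this]
      exact isClosed_univ
    · have : {f : List ℕ → Bool | Comp s t ∨ f s = false ∨ f t = false} =
          {f | f s = false} ∪ {f | f t = false} := by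
        ext f; simp [h]
      rw [this]
      exact (h1 s).union (h1 t)
  · by_cases h : Encodable.encode t < n0
    · have : {f : List ℕ → Bool | Encodable.encode t < n0 → f t = false} = {f | f t = false} := by
        ext f; simp [h]
      rw [this]
      exact h1 t
    · have : {f : List ℕ → Bool | Encodable.encode t < n0 → f t = false} = univ := by
        ext f; simp [h]
      rw [this]
      exact isClosed_univ

lemma finite_code (M : ℕ) : {t : List ℕ | Encodable.encode t < M}.Finite :=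
  (Set.finite_Iio M).preimage (Encodable.encode_injective.injOn)

/-- half the indicator function -/
noncomputable def hf (f : List ℕ → Bool) (t : List ℕ) : ℝ := if f t = true then 1 / 2 else 0

lemma hf_abs (f : List ℕ → Bool) (t : List ℕ) : |hf f t| ≤ 1 / 2 := by
  unfold hf
  split_ifs
  · rw [abs_of_pos (by norm_num)]
  · rw [abs_zero]; norm_num

theorem meet (hp : ∀ n, 0 < p n) (hq : Function.Injective q)
    (hpq : ∀ t, 2 * (((Encodable.encode t : ℕ) : ℝ) + 1) ≤ p (q t)) (e : I → ℕ)
    (U V : Set (Space (rho p))) (hU : IsOpen[modularTopology (rho p)] U)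
    (hV : IsOpen[modularTopology (rho p)] V) (z0 : Space (rho p)) (hz0 : (z0 : ℕ → ℝ) = 0)
    (h0 : z0 ∈ U) (hF : FF p q e ⊆ V) : (U ∩ V).Nonempty := by
  classical
  obtain ⟨n0, hn0⟩ := ball_of_open hU h0
  have hcl := YS_closed n0
  haveI : CompactSpace (YS n0) := isCompact_iff_compactSpace.1 hcl.isCompact
  haveI : Nonempty (YS n0) := ⟨⟨fun _ => false, by simp [YS]⟩⟩
  let S : ℕ → Set (YS n0) := fun n => {f | ∀ v : List ℕ → ℝ, (∀ t, |v t - hf f.1 t| ≤ 1 / 2) →
    (∀ t, Encodable.encode t < n → v t = hf f.1 t) →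
      ∀ x : Space (rho p), (x : ℕ → ℝ) = E q v → x ∈ U}
  have hcov : ⋃ n, S n = univ := by
    apply eq_univ_of_forall
    intro f
    have hm : E q (hf f.1) ∈ Space (rho p) := mem_space hp hq hpq fun t =>
      (hf_abs f.1 t).trans (by norm_num)
    have hfU : (⟨E q (hf f.1), hm⟩ : Space (rho p)) ∈ U := by
      apply hn0
      have h1 := rho_le hp hq hpq (v := hf f.1) (w := 0) (N := n0) (fun t => by
        simpa using hf_abs f.1 t) (fun t ht => by
          have := f.2.2 t ht
          simp [hf, this])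
      rw [E_zero] at h1
      rw [hz0]
      exact h1
    obtain ⟨N, hN⟩ := ball_of_open hU hfU
    refine mem_iUnion.2 ⟨N, fun v hv1 hv2 x hx => hN x ?_⟩
    rw [hx]
    exact rho_le hp hq hpq hv1 hv2
  obtain ⟨n, g, hg⟩ := nonempty_interior_of_iUnion_of_closed
    (f := fun n => closure (S n)) (fun n => isClosed_closure) (by
      apply eq_univ_of_univ_subset
      rw [← hcov]
      exact iUnion_mono fun n => subset_closure)
  -- a cylinder in which `S n` is dense
  obtain ⟨N, hN⟩ : ∃ N : ℕ, ∀ h : YS n0, (∀ t, Encodable.encode t < N → h.1 t = g.1 t) →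
      h ∈ closure (S n) := by
    obtain ⟨O, hO, hO2⟩ := isOpen_induced_iff.1 (isOpen_interior (s := closure (S n)))
    have hgO : g.1 ∈ O := by
      have : g ∈ Subtype.val ⁻¹' O := by rw [hO2]; exact hg
      exact this
    obtain ⟨J, u, hu, hsub⟩ := isOpen_pi_iff.1 hO g.1 hgO
    refine ⟨J.sup Encodable.encode + 1, fun h hh => ?_⟩
    have h1 : h ∈ Subtype.val ⁻¹' O := by
      apply hsub
      intro t ht
      have h2 : Encodable.encode t < J.sup Encodable.encode + 1 :=
        Nat.lt_succ_of_le (Finset.le_sup (f := fun t : List ℕ => Encodable.encode t) ht)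
      rw [hh t h2]
      exact (hu t ht).2
    rw [hO2] at h1
    exact interior_subset h1
  obtain ⟨N', hN'⟩ : ∃ N', N' = max N (max n n0) := ⟨_, rfl⟩
  have hNN : N ≤ N' := by rw [hN']; exact le_max_left _ _
  have hnN : n ≤ N' := by rw [hN']; exact (le_max_left _ _).trans (le_max_right _ _)
  have hn0N : n0 ≤ N' := by rw [hN']; exact (le_max_right _ _).trans (le_max_right _ _)
  have hfin : {t : List ℕ | Encodable.encode t < N' ∧ g.1 t = true}.Finite :=
    (finite_code N').subset fun t ht => ht.1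
  let σ : Finset (List ℕ) := hfin.toFinset
  have hσ : ∀ t, t ∈ σ ↔ Encodable.encode t < N' ∧ g.1 t = true := fun t => by simp [σ]
  obtain ⟨s, hs⟩ := chain_sup σ (by
    intro a ha b hb
    rcases g.2.1 a b with h | h | h
    · exact h
    · rw [((hσ a).1 ha).2] at h; exact absurd h (by simp)
    · rw [((hσ b).1 hb).2] at h; exact absurd h (by simp))
  let i : I := (N', s, σ)
  have hi : Good i := fun t ht => ⟨hs t ht, ((hσ t).1 ht).1⟩
  have hfptabs : ∀ t, |fpt e i t| ≤ 1 := by
    intro t
    unfold fpt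
    split_ifs <;> norm_num
  have hfm := mem_space hp hq hpq hfptabs
  have hfV : (⟨E q (fpt e i), hfm⟩ : Space (rho p)) ∈ V := hF ⟨i, hi, rfl⟩
  obtain ⟨M0, hM0⟩ := ball_of_open hV hfV
  obtain ⟨M, hM⟩ : ∃ M, M = max M0 N' := ⟨_, rfl⟩
  have hMM : M0 ≤ M := by rw [hM]; exact le_max_left _ _
  have hNM : N' ≤ M := by rw [hM]; exact le_max_right _ _
  let v : List ℕ → ℝ := fun t =>
    if t ∈ tail e i then (if Encodable.encode t < M then 1 else 1 / 2)
    else if t ∈ σ then 1 / 2 else 0
  have hvabs : ∀ t, |v t| ≤ 1 := by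
    intro t
    simp only [v]
    split_ifs <;> norm_num
  refine ⟨⟨E q v, mem_space hp hq hpq hvabs⟩, ?_, ?_⟩
  · -- the point belongs to `U`
    let h : YS n0 := ⟨fun t => decide (t ∈ tail e i ∨ t ∈ σ), by
      constructor
      · intro a b
        by_cases ha : a ∈ tail e i ∨ a ∈ σ
        · by_cases hb : b ∈ tail e i ∨ b ∈ σ
          · exact Or.inl (comp_good hi ha hb)
          · exact Or.inr (Or.inr (by simp only [decide_eq_false_iff_not]; exact hb))
        · exact Or.inr (Or.inl (by simp only [decide_eq_false_iff_not]; exact ha))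
      · intro t ht
        rw [decide_eq_false_iff_not]
        rintro (⟨k, _, h2⟩ | h2)
        · have : N' ≤ Encodable.encode t := h2
          omega
        · have h3 := ((hσ t).1 h2).2
          rw [g.2.2 t ht] at h3
          exact absurd h3 (by simp)⟩
    have htail : ∀ t, Encodable.encode t < N' → t ∉ tail e i := by
      rintro t ht ⟨k, _, h2⟩
      have : N' ≤ Encodable.encode t := h2
      omega
    have hclo : h ∈ closure (S n) := by
      apply hN
      intro t ht
      have ht' : Encodable.encode t < N' := by omega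
      show decide (t ∈ tail e i ∨ t ∈ σ) = g.1 t
      have h1 : (t ∈ tail e i ∨ t ∈ σ) ↔ g.1 t = true := by
        constructor
        · rintro (h2 | h2)
          · exact absurd h2 (htail t ht')
          · exact ((hσ t).1 h2).2
        · intro h2
          exact Or.inr ((hσ t).2 ⟨ht', h2⟩)
      by_cases h2 : g.1 t = true
      · rw [h2, decide_eq_true_iff]
        exact h1.2 h2
      · have h3 : g.1 t = false := by simpa using h2
        rw [h3, decide_eq_false_iff_not]
        exact fun h4 => h2 (h1.1 h4)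
    have hOp : IsOpen {f : YS n0 | ∀ t, Encodable.encode t < M → f.1 t = h.1 t} := by
      have h1 : IsOpen (({t : List ℕ | Encodable.encode t < M}).pi fun t => ({h.1 t} : Set Bool)) :=
        isOpen_set_pi (finite_code M) fun _ _ => isOpen_discrete _
      have h2 := h1.preimage (continuous_subtype_val (p := fun f => f ∈ YS n0))
      exact h2
    obtain ⟨f, hf1, hf2⟩ := mem_closure_iff.1 hclo _ hOp (fun _ _ => rfl)
    refine hf2 v ?_ ?_ _ rfl
    · intro t
      by_cases ht : Encodable.encode t < M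
      · have h1 : f.1 t = decide (t ∈ tail e i ∨ t ∈ σ) := hf1 t ht
        simp only [v, hf, h1, decide_eq_true_eq]
        by_cases h2 : t ∈ tail e i
        · simp only [h2, true_or, if_true, ht]
          rw [abs_le]
          constructor <;> norm_num
        · by_cases h3 : t ∈ σ
          · simp [h2, h3]
          · simp [h2, h3]
      · simp only [v, hf]
        split_ifs <;> norm_num
    · intro t ht
      have ht' : Encodable.encode t < N' := by omega
      have h1 : f.1 t = decide (t ∈ tail e i ∨ t ∈ σ) := hf1 t (by omega)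
      have h2 := htail t ht'
      simp only [v, hf, h1, decide_eq_true_eq, h2, false_or, if_false]
  · -- the point belongs to `V`
    apply hM0
    show rho p (E q v - E q (fpt e i)) ≤ _
    apply rho_le hp hq hpq
    · intro t
      have h1 : v t = fpt e i t ∨ (v t = 1 / 2 ∧ fpt e i t = 1) := by
        by_cases h2 : t ∈ tail e i
        · by_cases h3 : Encodable.encode t < M
          · left; simp only [v, fpt, h2, h3, if_true]
          · right; simp only [v, fpt, h2, h3, if_true, if_false, and_self]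
        · left
          simp only [v, fpt, h2, if_false]
          rfl
      rcases h1 with h1 | ⟨h1, h2⟩
      · rw [h1, sub_self, abs_zero]; norm_num
      · rw [h1, h2, abs_le]; constructor <;> norm_num
    · intro t ht
      have ht' : Encodable.encode t < M := by omega
      simp only [v, fpt, ht', if_true]
      rfl

/-- **The modular topology of `ℓ^(p_n)` is not regular for unbounded exponents.** -/
theorem not_regular (hp : ∀ n, 0 < p n) (hunb : ¬ BddAbove (range p)) :
    ∃ F : Set (Space (rho p)), MClosed (rho p) F ∧ ∃ x : Space (rho p), (x : ℕ → ℝ) = 0 ∧ x ∉ F ∧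
      ∀ U V : Set (Space (rho p)), IsOpen[modularTopology (rho p)] U →
        IsOpen[modularTopology (rho p)] V → x ∈ U → F ⊆ V → (U ∩ V).Nonempty := by
  obtain ⟨q, hq, hpq⟩ := exists_q hunb
  obtain ⟨e, he⟩ := exists_injective_nat I
  have h0 : (0 : ℕ → ℝ) ∈ Space (rho p) := by
    have := mem_space hp hq hpq (v := 0) (fun t => by simp)
    rwa [E_zero] at this
  refine ⟨FF p q e, FF_closed hp hq he, ⟨0, h0⟩, rfl, ?_, ?_⟩
  · rintro ⟨i, hi, h⟩
    obtain ⟨k, _, hk⟩ := exists_tail e i 0
    have h1 := congrFun h (q (i.2.1 ++ List.replicate k (e i)))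
    rw [E_apply hq, fpt_tail ⟨k, rfl, hk⟩] at h1
    exact absurd h1 (by simp)
  · intro U V hU hV hx hF
    exact meet hp hq hpq e U V hU hV _ rfl hx hF

theorem not_regularSpace (hp : ∀ n, 0 < p n) (hunb : ¬ BddAbove (range p)) :
    ¬ @RegularSpace (Space (rho p)) (modularTopology (rho p)) := by
  letI := modularTopology (rho p)
  intro hreg
  obtain ⟨F, hF, x, _, hxF, h⟩ := not_regular hp hunb
  have h1 := hreg.regular ((isClosed_iff (rho p) F).2 hF) hxF
  obtain ⟨A, hA, B, hB, hAB⟩ := Filter.disjoint_iff.1 h1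
  obtain ⟨V, hV, hFV, hVA⟩ := mem_nhdsSet_iff_exists.1 hA
  obtain ⟨U, hUB, hU, hxU⟩ := mem_nhds_iff.1 hB
  obtain ⟨z, hz1, hz2⟩ := h U V hU hV hxU hFV
  exact Set.disjoint_left.1 hAB (hVA hz2) (hUB hz1)

end Pool.Agent.Q247.MT
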